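import Pool.Agent.Y520.AF.Stm

/-!
# Project AF of helper520 (by helper302): global coordinates on a strip and their smooth inverse
-/

set_option autoImplicit false

noncomputable section

open Real Filter Topology Set
open scoped ContDiff

namespace Pool.Agent.Y302.AF

open Pool.Agent.Y520.AF

/-- smoothness of an inverse function -/
theorem inv_smooth {Ψ : ℝ × ℝ → ℝ × ℝ} {U : Set (ℝ × ℝ)} (hU : IsOpen U) (hinj : InjOn Ψ U)
    (hsm : ∀ p ∈ U, ContDiffAt ℝ ∞ Ψ p)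
    (hder : ∀ p ∈ U, ∃ e : (ℝ × ℝ) ≃L[ℝ] (ℝ × ℝ), HasFDerivAt Ψ (e : (ℝ × ℝ) →L[ℝ] (ℝ × ℝ)) p)
    {inv : ℝ × ℝ → ℝ × ℝ} (h1 : ∀ q, inv q ∈ U) (h2 : ∀ q, Ψ (inv q) = q) :
    ContDiff ℝ ∞ inv := by
  rw [contDiff_iff_contDiffAt]
  intro q
  obtain ⟨e, he⟩ := hder (inv q) (h1 q)
  have hc := hsm (inv q) (h1 q)
  have hn : (∞ : WithTop ℕ∞) ≠ 0 := by simp
  have c1 : ContDiffAt ℝ ∞ (hc.localInverse he hn) (Ψ (inv q)) := hc.to_localInverse he hn
  have c2 : hc.localInverse he hn (Ψ (inv q)) = inv q := hc.localInverse_apply_image he hn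
  have c3 : ∀ᶠ y in 𝓝 (Ψ (inv q)), Ψ (hc.localInverse he hn y) = y :=
    (hc.hasStrictFDerivAt' he hn).eventually_right_inverse
  rw [h2] at c1 c2 c3
  refine c1.congr_of_eventuallyEq ?_
  have c4 : ∀ᶠ y in 𝓝 q, hc.localInverse he hn y ∈ U := by
    apply c1.continuousAt.eventually_mem
    rw [c2]
    exact hU.mem_nhds (h1 q)
  filter_upwards [c3, c4] with y hy1 hy2
  exact hinj (h1 y) hy2 (by rw [h2, hy1])

/-- the linear isomorphism -/
theorem ex_equiv {W R : ℝ} (hW : W ≠ 0) (hR : R ≠ 0) (H : ℝ) (A : (ℝ × ℝ) →L[ℝ] (ℝ × ℝ))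
    (hA : ∀ q, A q = (W * q.1, R * q.2 + H * q.1)) :
    ∃ e : (ℝ × ℝ) ≃L[ℝ] (ℝ × ℝ), (e : (ℝ × ℝ) →L[ℝ] (ℝ × ℝ)) = A := by
  obtain ⟨B, hB⟩ : ∃ B : (ℝ × ℝ) →L[ℝ] (ℝ × ℝ), ∀ q, B q = (W⁻¹ * q.1,
      R⁻¹ * (q.2 - H * (W⁻¹ * q.1))) := by
    refine ⟨(W⁻¹ • ContinuousLinearMap.fst ℝ ℝ ℝ).prod (R⁻¹ • (ContinuousLinearMap.snd ℝ ℝ ℝ -
      H • (W⁻¹ • ContinuousLinearMap.fst ℝ ℝ ℝ))), ?_⟩
    intro q
    rfl
  refine ⟨ContinuousLinearEquiv.equivOfInverse A B ?_ ?_, ?_⟩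
  · intro q
    rw [hB, hA]
    ext
    · show W⁻¹ * (W * q.1) = q.1
      field_simp
    · show R⁻¹ * (R * q.2 + H * q.1 - H * (W⁻¹ * (W * q.1))) = q.2
      field_simp
      ring
  · intro q
    rw [hA, hB]
    ext
    · show W * (W⁻¹ * q.1) = q.1
      field_simp
    · show R * (R⁻¹ * (q.2 - H * (W⁻¹ * q.1))) + H * (W⁻¹ * q.1) = q.2
      field_simp
      ring
  · rfl

theorem ww_pos (s₀ s : ℝ) : 0 < ww s₀ s := by
  unfold ww
  apply Real.sqrt_pos.mpr
  positivity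

theorem ww_even (s₀ s : ℝ) : ww s₀ (-s) = ww s₀ s := by
  unfold ww
  have h1 : (2 * -s / (s₀ ^ 2 - (-s) ^ 2) ^ 2) ^ 2 = (2 * s / (s₀ ^ 2 - s ^ 2) ^ 2) ^ 2 := by
    rw [neg_sq, mul_neg, neg_div, neg_sq]
  rw [h1]

theorem sq_pos_of_mem {s₀ s : ℝ} (hs : s ∈ Ioo (-s₀) s₀) : 0 < s₀ ^ 2 - s ^ 2 := by
  nlinarith [hs.1, hs.2]

theorem ww_smooth (s₀ : ℝ) : ContDiffOn ℝ ∞ (ww s₀) (Ioo (-s₀) s₀) := by
  intro s hs
  apply ContDiffAt.contDiffWithinAt
  have hne := sq_pos_of_mem hs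
  unfold ww
  refine ContDiffAt.sqrt ?_ (by positivity)
  refine contDiffAt_const.add (ContDiffAt.pow ?_ 2)
  refine ContDiffAt.div (contDiffAt_const.mul contDiffAt_id) ?_ (by positivity)
  exact (contDiffAt_const.sub (contDiffAt_id.pow 2)).pow 2

theorem ff_deriv {s₀ s : ℝ} (hs : s ∈ Ioo (-s₀) s₀) :
    HasDerivAt (ff s₀) (2 * s / (s₀ ^ 2 - s ^ 2) ^ 2) s := by
  have hne := (sq_pos_of_mem hs).ne'
  have h1 : HasDerivAt (fun s : ℝ => s₀ ^ 2 - s ^ 2) (-(2 * s)) s := by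
    have := (hasDerivAt_pow 2 s).const_sub (s₀ ^ 2)
    simpa using this
  have h2 := h1.inv hne
  have h3 : ff s₀ = (fun s : ℝ => s₀ ^ 2 - s ^ 2)⁻¹ := by
    funext s
    unfold ff
    rw [one_div]
    rfl
  rw [h3]
  convert! h2 using 1
  ring

theorem exT {s₀ : ℝ} (h0 : 0 < s₀) : ∃ T : ℝ → ℝ, (∀ s ∈ Ioo (-s₀) s₀, HasDerivAt T (ww s₀ s) s) ∧
    ContDiffOn ℝ ∞ T (Ioo (-s₀) s₀) ∧ (∀ s, T (-s) = -T s) ∧
    StrictMonoOn T (Ioo (-s₀) s₀) ∧ (∀ t, ∃ s ∈ Ioo (-s₀) s₀, T s = t) := by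
  obtain ⟨T, hT⟩ : ∃ T : ℝ → ℝ, T = fun s => ∫ x in (0 : ℝ)..s, ww s₀ x := ⟨_, rfl⟩
  have hcont : ContinuousOn (ww s₀) (Ioo (-s₀) s₀) := (ww_smooth s₀).continuousOn
  have h0m : (0 : ℝ) ∈ Ioo (-s₀) s₀ := ⟨by linarith, h0⟩
  have hder : ∀ s ∈ Ioo (-s₀) s₀, HasDerivAt T (ww s₀ s) s := by
    intro s hs
    rw [hT]
    apply intervalIntegral.integral_hasDerivAt_right
    · apply ContinuousOn.intervalIntegrable
      apply hcont.mono
      exact Set.OrdConnected.uIcc_subset Set.ordConnected_Ioo h0m hs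
    · exact hcont.stronglyMeasurableAtFilter isOpen_Ioo s hs
    · exact hcont.continuousAt (isOpen_Ioo.mem_nhds hs)
  have hTc : ContinuousOn T (Ioo (-s₀) s₀) := fun s hs =>
    (hder s hs).continuousAt.continuousWithinAt
  have hodd : ∀ s, T (-s) = -T s := by
    intro s
    rw [hT]
    show ∫ x in (0 : ℝ)..(-s), ww s₀ x = -∫ x in (0 : ℝ)..s, ww s₀ x
    have h1 := intervalIntegral.integral_comp_neg (f := ww s₀) (a := 0) (b := s)
    simp only [ww_even, neg_zero] at h1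
    rw [h1, intervalIntegral.integral_symm 0 (-s)]
    ring
  have hmono : StrictMonoOn T (Ioo (-s₀) s₀) := by
    apply strictMonoOn_of_deriv_pos (convex_Ioo _ _) hTc
    intro s hs
    rw [interior_Ioo] at hs
    rw [(hder s hs).deriv]
    exact ww_pos _ _
  refine ⟨T, hder, ?_, hodd, hmono, ?_⟩
  · rw [contDiffOn_infty_iff_deriv_of_isOpen isOpen_Ioo]
    refine ⟨fun s hs => (hder s hs).differentiableAt.differentiableWithinAt, ?_⟩
    exact (ww_smooth s₀).congr fun s hs => (hder s hs).deriv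
  · have hT0 : T 0 = 0 := by
      have := hodd 0
      rw [neg_zero] at this
      linarith
    have hlow : ∀ s ∈ Ico (0 : ℝ) s₀, ff s₀ s - ff s₀ 0 ≤ T s := by
      intro s hs
      have hsub : Ico (0 : ℝ) s₀ ⊆ Ioo (-s₀) s₀ := fun x hx => ⟨by linarith [hx.1], hx.2⟩
      have hm : MonotoneOn (fun s => T s - ff s₀ s) (Ico (0 : ℝ) s₀) := by
        have hd : ∀ s ∈ Ioo (-s₀) s₀, HasDerivAt (fun s => T s - ff s₀ s)
            (ww s₀ s - 2 * s / (s₀ ^ 2 - s ^ 2) ^ 2) s := fun s hs => (hder s hs).sub (ff_deriv hs)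
        apply monotoneOn_of_deriv_nonneg (convex_Ico _ _)
        · intro x hx
          exact (hd x (hsub hx)).continuousAt.continuousWithinAt
        · intro x hx
          rw [interior_Ico] at hx
          exact (hd x (hsub ⟨hx.1.le, hx.2⟩)).differentiableAt.differentiableWithinAt
        · intro x hx
          rw [interior_Ico] at hx
          rw [(hd x (hsub ⟨hx.1.le, hx.2⟩)).deriv]
          unfold ww
          have h1 : |2 * x / (s₀ ^ 2 - x ^ 2) ^ 2| ≤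
              √(1 + (2 * x / (s₀ ^ 2 - x ^ 2) ^ 2) ^ 2) := by
            apply Real.abs_le_sqrt
            linarith
          have h2 := le_abs_self (2 * x / (s₀ ^ 2 - x ^ 2) ^ 2)
          linarith
      have := hm ⟨le_rfl, h0⟩ hs hs.1
      simp only [hT0] at this
      linarith
    intro t
    obtain ⟨d, hd⟩ : ∃ d : ℝ, d = (|t| + 1 / s₀ ^ 2)⁻¹ := ⟨_, rfl⟩
    have hs2 : 0 < 1 / s₀ ^ 2 := by positivity
    have hdpos : 0 < d := by
      rw [hd]
      have := abs_nonneg t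
      positivity
    have hdle : d ≤ s₀ ^ 2 := by
      rw [hd]
      have h1 : (1 / s₀ ^ 2)⁻¹ = s₀ ^ 2 := by
        rw [one_div, inv_inv]
      have h2 := inv_anti₀ hs2 (by linarith [abs_nonneg t] : 1 / s₀ ^ 2 ≤ |t| + 1 / s₀ ^ 2)
      rw [h1] at h2
      exact h2
    obtain ⟨s, hs⟩ : ∃ s : ℝ, s = √(s₀ ^ 2 - d) := ⟨_, rfl⟩
    have hssq : s ^ 2 = s₀ ^ 2 - d := by
      rw [hs]
      exact Real.sq_sqrt (by linarith)
    have hsnn : 0 ≤ s := by rw [hs]; exact Real.sqrt_nonneg _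
    have hslt : s < s₀ := by
      nlinarith
    have h1 := hlow s ⟨hsnn, hslt⟩
    have h2 : ff s₀ s = |t| + 1 / s₀ ^ 2 := by
      unfold ff
      rw [hssq, sub_sub_cancel, hd, one_div, inv_inv]
    have h3 : ff s₀ 0 = 1 / s₀ ^ 2 := by
      unfold ff
      simp
    rw [h2, h3] at h1
    have h4 : |t| ≤ T s := by linarith
    have hsub : Icc (-s) s ⊆ Ioo (-s₀) s₀ := fun x hx => ⟨by linarith [hx.1], by linarith [hx.2]⟩
    have h5 := intermediate_value_Icc (by linarith : -s ≤ s) (hTc.mono hsub)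
    obtain ⟨x, hx, hxt⟩ := h5 (show t ∈ Icc (T (-s)) (T s) by
      rw [hodd]
      constructor
      · have := neg_abs_le t
        linarith
      · exact (le_abs_self t).trans h4)
    exact ⟨x, hsub hx, hxt⟩

/-- a smooth primitive -/
theorem ex_prim {ρ : ℝ → ℝ} (hρ : ContDiff ℝ ∞ ρ) (hper : ∀ x, ρ (x + π) = ρ x) :
    ∃ l : ℝ → ℝ, ∃ a : ℝ, ContDiff ℝ ∞ l ∧ (∀ x, HasDerivAt l (ρ x) x) ∧
      ∀ x, l (x + π) = l x + a := by
  have hc := hρ.continuous
  have hd : ∀ x, HasDerivAt (fun x => ∫ u in (0 : ℝ)..x, ρ u) (ρ x) x := fun x =>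
    intervalIntegral.integral_hasDerivAt_right (hc.intervalIntegrable _ _)
      (hc.stronglyMeasurableAtFilter _ _) hc.continuousAt
  refine ⟨fun x => ∫ u in (0 : ℝ)..x, ρ u, ∫ u in (0 : ℝ)..π, ρ u, ?_, hd, ?_⟩
  · rw [contDiff_infty_iff_deriv]
    refine ⟨fun x => (hd x).differentiableAt, ?_⟩
    have : deriv (fun x => ∫ u in (0 : ℝ)..x, ρ u) = ρ := by
      funext x
      exact (hd x).deriv
    rw [this]
    exact hρ
  · intro x
    have h1 : Function.Periodic ρ π := hper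
    have h2 := h1.intervalIntegral_add_eq x 0
    rw [zero_add] at h2
    show ∫ u in (0 : ℝ)..(x + π), ρ u = (∫ u in (0 : ℝ)..x, ρ u) + ∫ u in (0 : ℝ)..π, ρ u
    rw [← h2]
    exact (intervalIntegral.integral_add_adjacent_intervals (hc.intervalIntegrable _ _)
      (hc.intervalIntegrable _ _)).symm

theorem bij1 {g g' : ℝ → ℝ} (hg : ∀ x, HasDerivAt g (g' x) x) {c : ℝ} (hc : 0 < c)
    (hcg : ∀ x, c ≤ g' x) : StrictMono g ∧ ∀ v, ∃ x, g x = v := by
  have hcont : Continuous g := continuous_iff_continuousAt.mpr fun x => (hg x).continuousAt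
  refine ⟨strictMono_of_deriv_pos fun x => by rw [(hg x).deriv]; exact hc.trans_le (hcg x), ?_⟩
  intro v
  have hm : Monotone (fun x => g x - c * x) := by
    have hd : ∀ x, HasDerivAt (fun x => g x - c * x) (g' x - c * 1) x := fun x =>
      (hg x).sub ((hasDerivAt_id x).const_mul c)
    apply monotone_of_deriv_nonneg (fun x => (hd x).differentiableAt)
    intro x
    rw [(hd x).deriv]
    linarith [hcg x]
  obtain ⟨x1, hx1⟩ : ∃ x1 : ℝ, x1 = |v - g 0| / c := ⟨_, rfl⟩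
  have hx1n : 0 ≤ x1 := by rw [hx1]; positivity
  have hx1c : c * x1 = |v - g 0| := by rw [hx1]; field_simp
  have e1 := hm hx1n
  have e2 := hm (neg_nonpos.mpr hx1n)
  simp only [mul_zero, sub_zero, mul_neg, sub_neg_eq_add] at e1 e2
  rw [hx1c] at e1 e2
  obtain ⟨x, _, hx⟩ := intermediate_value_Icc (by linarith : -x1 ≤ x1) hcont.continuousOn
    (show v ∈ Icc (g (-x1)) (g x1) by
      constructor
      · have := neg_abs_le (v - g 0)
        linarith
      · have := le_abs_self (v - g 0)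
        linarith)
  exact ⟨x, hx⟩

theorem lower_bound {ρ : ℝ → ℝ} (hc : Continuous ρ) (hpos : ∀ x, 0 < ρ x)
    (hper : ∀ x, ρ (x + π) = ρ x) : ∃ c : ℝ, 0 < c ∧ ∀ x, c ≤ ρ x := by
  obtain ⟨x0, _, hx0⟩ := (isCompact_Icc (a := (0 : ℝ)) (b := π)).exists_isMinOn
    (nonempty_Icc.mpr Real.pi_pos.le) hc.continuousOn
  refine ⟨ρ x0, hpos x0, fun x => ?_⟩
  obtain ⟨y, hy, hxy⟩ := (show Function.Periodic ρ π from hper).exists_mem_Ico₀ Real.pi_pos x
  rw [hxy]
  exact hx0 ⟨hy.1, hy.2.le⟩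

theorem upper_bound {g : ℝ → ℝ} (hc : Continuous g) (hper : ∀ x, g (x + π) = g x) :
    ∃ M : ℝ, ∀ x, g x ≤ M := by
  obtain ⟨x0, _, hx0⟩ := (isCompact_Icc (a := (0 : ℝ)) (b := π)).exists_isMaxOn
    (nonempty_Icc.mpr Real.pi_pos.le) hc.continuousOn
  refine ⟨g x0, fun x => ?_⟩
  obtain ⟨y, hy, hxy⟩ := (show Function.Periodic g π from hper).exists_mem_Ico₀ Real.pi_pos x
  rw [hxy]
  exact hx0 ⟨hy.1, hy.2.le⟩

theorem t_COORD : S_COORD := by
  intro ρ h hρ hh hpos hρp hhp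
  obtain ⟨l, a, hl, hld, hla⟩ := ex_prim hρ hρp
  obtain ⟨c, hc, hcρ⟩ := lower_bound hρ.continuous hpos hρp
  have hhd : ∀ x, HasDerivAt h (deriv h x) x := fun x =>
    ((hh.differentiable (by simp)) x).hasDerivAt
  have hhc : ContDiff ℝ ∞ (deriv h) := (contDiff_infty_iff_deriv.mp hh).2
  have hdp : ∀ x, deriv h (x + π) = -deriv h x := by
    intro x
    have h1 : HasDerivAt (fun x => h (x + π)) (deriv h (x + π)) x := by
      have := (hhd (x + π)).comp_add_const x π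
      exact this
    have h2 : HasDerivAt (fun x => h (x + π)) (-deriv h x) x := by
      have h3 : (fun x => h (x + π)) = -h := by
        funext x
        rw [hhp]
        rfl
      rw [h3]
      exact (hhd x).neg
    exact h1.unique h2
  obtain ⟨M, hM⟩ := upper_bound (g := fun x => |deriv h x|) hhc.continuous.abs (by
    intro x
    show |deriv h (x + π)| = |deriv h x|
    rw [hdp, abs_neg])
  have hM0 : 0 ≤ M := (abs_nonneg _).trans (hM 0)
  have ha : 0 < a := by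
    have h1 : StrictMono l := (bij1 hld hc hcρ).1
    have h2 := h1 Real.pi_pos
    have h3 := hla 0
    rw [zero_add] at h3
    linarith
  refine ⟨a, c / (2 * (M + 1)), ha, by positivity, ?_⟩
  intro s₀ hs₀ hs₁
  obtain ⟨T, hT1, hT2, hT3, hT4, hT5⟩ := exT hs₀
  -- the coefficient
  have hR : ∀ s ∈ Ioo (-s₀) s₀, ∀ x, c / 2 ≤ ρ x + s * deriv h x := by
    intro s hs x
    have h1 : |s * deriv h x| ≤ c / (2 * (M + 1)) * M := by
      rw [abs_mul]
      have h2 : |s| ≤ c / (2 * (M + 1)) := (abs_lt.mpr hs).le.trans hs₁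
      exact mul_le_mul h2 (hM x) (abs_nonneg _) (by positivity)
    have h2 : c / (2 * (M + 1)) * M ≤ c / 2 := by
      rw [div_mul_eq_mul_div, div_le_div_iff₀ (by positivity) (by positivity)]
      nlinarith
    have h3 := neg_abs_le (s * deriv h x)
    linarith [hcρ x]
  have hg : ∀ s x, HasDerivAt (fun x => l x + s * h x) (ρ x + s * deriv h x) x := fun s x =>
    (hld x).add ((hhd x).const_mul s)
  have hc2 : 0 < c / 2 := by positivity
  -- the map
  obtain ⟨Ψ, hΨ⟩ : ∃ Ψ : ℝ × ℝ → ℝ × ℝ, Ψ = fun p => (T p.1, l p.2 + p.1 * h p.2) := ⟨_, rfl⟩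
  obtain ⟨U, hU⟩ : ∃ U : Set (ℝ × ℝ), U = {p | p.1 ∈ Ioo (-s₀) s₀} := ⟨_, rfl⟩
  have hUo : IsOpen U := by
    rw [hU]
    exact isOpen_Ioo.preimage continuous_fst
  have hinj : InjOn Ψ U := by
    intro p hp q hq hpq
    rw [hU] at hp hq
    rw [hΨ] at hpq
    have e1 : T p.1 = T q.1 := congrArg Prod.fst hpq
    have e2 : l p.2 + p.1 * h p.2 = l q.2 + q.1 * h q.2 := congrArg Prod.snd hpq
    have e3 : p.1 = q.1 := hT4.injOn hp hq e1
    rw [← e3] at e2
    have e4 : p.2 = q.2 := (bij1 (hg p.1) hc2 (hR p.1 hp)).1.injective e2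
    exact Prod.ext e3 e4
  have hsurj : ∀ q : ℝ × ℝ, ∃ p, p ∈ U ∧ Ψ p = q := by
    intro q
    obtain ⟨s, hs, hs'⟩ := hT5 q.1
    obtain ⟨x, hx⟩ := (bij1 (hg s) hc2 (hR s hs)).2 q.2
    refine ⟨(s, x), ?_, ?_⟩
    · rw [hU]
      exact hs
    · rw [hΨ]
      exact Prod.ext hs' hx
  choose inv hinv1 hinv2 using hsurj
  have hinvU : ∀ q, (inv q).1 ∈ Ioo (-s₀) s₀ := by
    intro q
    have := hinv1 q
    rw [hU] at this
    exact this
  have hT' : ∀ q, T (inv q).1 = q.1 := by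
    intro q
    have := congrArg Prod.fst (hinv2 q)
    rw [hΨ] at this
    exact this
  have hL' : ∀ q, l (inv q).2 + (inv q).1 * h (inv q).2 = q.2 := by
    intro q
    have := congrArg Prod.snd (hinv2 q)
    rw [hΨ] at this
    exact this
  have huniq : ∀ s x q, s ∈ Ioo (-s₀) s₀ → T s = q.1 → l x + s * h x = q.2 → inv q = (s, x) := by
    intro s x q hs h1 h2
    apply hinj (hinv1 q)
    · rw [hU]
      exact hs
    · rw [hinv2, hΨ]
      exact Prod.ext h1.symm h2.symm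
  have hsm : ContDiff ℝ ∞ inv := by
    apply inv_smooth hUo hinj ?_ ?_ hinv1 hinv2
    · intro p hp
      rw [hU] at hp
      rw [hΨ]
      apply ContDiffAt.prodMk
      · exact ((hT2.contDiffAt (isOpen_Ioo.mem_nhds hp))).comp p contDiffAt_fst
      · apply ContDiffAt.add
        · exact (hl.comp contDiff_snd).contDiffAt
        · exact (contDiff_fst.mul (hh.comp contDiff_snd)).contDiffAt
    · intro p hp
      rw [hU] at hp
      have d1 : HasFDerivAt (fun p : ℝ × ℝ => T p.1) (ww s₀ p.1 • ContinuousLinearMap.fst ℝ ℝ ℝ)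
          p := (hT1 p.1 hp).comp_hasFDerivAt p hasFDerivAt_fst
      have d2 : HasFDerivAt (fun p : ℝ × ℝ => l p.2) (ρ p.2 • ContinuousLinearMap.snd ℝ ℝ ℝ) p :=
        (hld p.2).comp_hasFDerivAt p hasFDerivAt_snd
      have d3 : HasFDerivAt (fun p : ℝ × ℝ => h p.2) (deriv h p.2 • ContinuousLinearMap.snd ℝ ℝ ℝ)
          p := (hhd p.2).comp_hasFDerivAt p hasFDerivAt_snd
      have d4 : HasFDerivAt (fun p : ℝ × ℝ => p.1 * h p.2)
          (p.1 • (deriv h p.2 • ContinuousLinearMap.snd ℝ ℝ ℝ) +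
            h p.2 • ContinuousLinearMap.fst ℝ ℝ ℝ) p := hasFDerivAt_fst.mul d3
      have d5 := d1.prodMk (d2.add d4)
      obtain ⟨e, he⟩ := ex_equiv (W := ww s₀ p.1) (R := ρ p.2 + p.1 * deriv h p.2)
        (ww_pos _ _).ne' (hc2.trans_le (hR p.1 hp p.2)).ne' (h p.2) _ (fun q => by
          show (ww s₀ p.1 * q.1, ρ p.2 * q.2 + (p.1 * (deriv h p.2 * q.2) + h p.2 * q.1)) = _
          refine Prod.ext rfl ?_
          show ρ p.2 * q.2 + (p.1 * (deriv h p.2 * q.2) + h p.2 * q.1) =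
            (ρ p.2 + p.1 * deriv h p.2) * q.2 + h p.2 * q.1
          ring : ∀ q, ((ww s₀ p.1 • ContinuousLinearMap.fst ℝ ℝ ℝ).prod
            (ρ p.2 • ContinuousLinearMap.snd ℝ ℝ ℝ +
              (p.1 • (deriv h p.2 • ContinuousLinearMap.snd ℝ ℝ ℝ) +
              h p.2 • ContinuousLinearMap.fst ℝ ℝ ℝ))) q = _)
      refine ⟨e, ?_⟩
      rw [he, hΨ]
      exact d5
  have hσ : ContDiff ℝ ∞ (fun q => (inv q).1) := contDiff_fst.comp hsm
  have hξ : ContDiff ℝ ∞ (fun q => (inv q).2) := contDiff_snd.comp hsm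
  have hσd : ∀ p, HasFDerivAt (fun q => (inv q).1) (fderiv ℝ (fun q => (inv q).1) p) p := fun p =>
    ((hσ.differentiable (by simp)) p).hasFDerivAt
  have hξd : ∀ p, HasFDerivAt (fun q => (inv q).2) (fderiv ℝ (fun q => (inv q).2) p) p := fun p =>
    ((hξ.differentiable (by simp)) p).hasFDerivAt
  refine ⟨fun q => (inv q).1, fun q => (inv q).2, hσ, hξ, fun p => abs_lt.mpr (hinvU p), ?_, ?_,
    ?_, ?_, ?_⟩
  · intro s x hs
    have h1 := huniq s x (T s, l x + s * h x) (abs_lt.mp hs) rfl rfl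
    exact ⟨(T s, l x + s * h x), congrArg Prod.fst h1, congrArg Prod.snd h1⟩
  · intro p q h1 h2
    have h3 : inv p = inv q := Prod.ext h1 h2
    rw [← hinv2 p, ← hinv2 q, h3]
  · intro t v
    have h1 := hinvU (t, v)
    have h2 := hT' (t, v)
    have h3 := hL' (t, v)
    have h4 := huniq (-(inv (t, v)).1) ((inv (t, v)).2 + π) (-t, v + a)
      ⟨by linarith [h1.2], by linarith [h1.1]⟩ (by rw [hT3, h2]) (by
        rw [hla, hhp]
        show _ = v + a
        simp only at h3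
        linarith)
    exact ⟨congrArg Prod.fst h4, congrArg Prod.snd h4⟩
  · intro p q
    have h1 : HasFDerivAt (fun q => T ((inv q).1)) (ww s₀ (inv p).1 •
        fderiv ℝ (fun q => (inv q).1) p) p := (hT1 _ (hinvU p)).comp_hasFDerivAt p (hσd p)
    have h2 : (fun q => T ((inv q).1)) = Prod.fst := by
      funext q
      exact hT' q
    rw [h2] at h1
    have h3 := h1.unique hasFDerivAt_fst
    have h4 := congrArg (fun A : (ℝ × ℝ) →L[ℝ] ℝ => A q) h3
    exact h4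
  · intro p q
    have h1 : HasFDerivAt (fun q => l ((inv q).2)) (ρ (inv p).2 •
        fderiv ℝ (fun q => (inv q).2) p) p := (hld _).comp_hasFDerivAt p (hξd p)
    have h1' : HasFDerivAt (fun q => h ((inv q).2)) (deriv h (inv p).2 •
        fderiv ℝ (fun q => (inv q).2) p) p := (hhd _).comp_hasFDerivAt p (hξd p)
    have h2 := h1.add ((hσd p).mul h1')
    have h3 : (fun q => l ((inv q).2)) + ((fun q => (inv q).1) * (fun q => h ((inv q).2))) =
        Prod.snd := by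
      funext q
      exact hL' q
    have h4 : HasFDerivAt (Prod.snd : ℝ × ℝ → ℝ) (ρ (inv p).2 • fderiv ℝ (fun q => (inv q).2) p +
        ((inv p).1 • (deriv h (inv p).2 • fderiv ℝ (fun q => (inv q).2) p) +
          h (inv p).2 • fderiv ℝ (fun q => (inv q).1) p)) p :=
      h2.congr_of_eventuallyEq (Filter.EventuallyEq.of_eq h3.symm)
    have h5 := h4.unique hasFDerivAt_snd
    have h6 := congrArg (fun A : (ℝ × ℝ) →L[ℝ] ℝ => A q) h5
    have h7 : ρ (inv p).2 * fderiv ℝ (fun q => (inv q).2) p q +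
        ((inv p).1 * (deriv h (inv p).2 * fderiv ℝ (fun q => (inv q).2) p q) +
          h (inv p).2 * fderiv ℝ (fun q => (inv q).1) p q) = q.2 := h6
    show (ρ (inv p).2 + (inv p).1 * deriv h (inv p).2) * fderiv ℝ (fun q => (inv q).2) p q +
      h (inv p).2 * fderiv ℝ (fun q => (inv q).1) p q = q.2
    rw [← h7]
    ring

end Pool.Agent.Y302.AF
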