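import Pool.Agent.Y520.AF.Stm

/-!
# Project AF of helper520 (by helper302): two coordinates are algebraically independent
-/

set_option autoImplicit false

noncomputable section

open Real Filter Topology Set

namespace Pool.Agent.Y302.AF

open Pool.Agent.Y520.AF

theorem eval_aeval_poly (P : MvPolynomial (Fin 2) ℝ) (g : Fin 2 → Polynomial ℝ) (y : ℝ) :
    Polynomial.eval y (MvPolynomial.aeval g P) =
      MvPolynomial.eval (fun i => Polynomial.eval y (g i)) P := by
  induction P using MvPolynomial.induction_on with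
  | C a => simp
  | add p q hp hq => rw [map_add, map_add, Polynomial.eval_add, hp, hq]
  | mul_X p i hp =>
    rw [map_mul, map_mul, Polynomial.eval_mul, hp, MvPolynomial.aeval_X, MvPolynomial.eval_X]

theorem vec_eq (g : Fin 2 → Polynomial ℝ) (y a b : ℝ) (h0 : Polynomial.eval y (g 0) = a)
    (h1 : Polynomial.eval y (g 1) = b) : (fun i => Polynomial.eval y (g i)) = ![a, b] := by
  funext i
  fin_cases i
  · exact h0
  · exact h1

theorem t_TRL (hA : S_ANA) : S_TRL := by
  intro s₀ hs₀ P hP
  have hgp := hA.1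
  have hgc : Continuous gg := by
    rw [← continuousOn_univ]
    exact hA.2.continuousOn
  have hc0 : Continuous c0 := by unfold c0; fun_prop
  have hp0 : Continuous p0 := by unfold p0; fun_prop
  have hmm : Continuous mm := by unfold mm; fun_prop
  have hrh : Continuous rh := by
    unfold rh p0 p1 p2
    fun_prop
  have hr0 : Continuous r0 := by unfold r0; fun_prop
  have hd0 : Continuous d0 := by
    unfold d0
    refine (hc0.div hgc fun x => (hgp x).ne').add ?_
    exact (((hrh.pow 2).mul hmm).mul hp0).div (hgc.pow 3) fun x => (pow_pos (hgp x) 3).ne'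
  have hgg0 : gg 0 = 12 := by
    unfold gg c0 c1 c2
    rw [sin_zero, cos_zero]
    norm_num
  have hggπ : gg π = 12 := by
    unfold gg c0 c1 c2
    rw [sin_pi, cos_pi]
    norm_num
  have hv0 : d0 0 = -1 := by
    unfold d0
    rw [hgg0]
    unfold c0 mm
    rw [sin_zero, cos_zero]
    norm_num
  have hvπ : d0 π = 1 := by
    unfold d0
    rw [hggπ]
    unfold c0 mm
    rw [sin_pi, cos_pi]
    norm_num
  have hr00 : r0 0 = 0 := by unfold r0; simp
  have hr0π : r0 π = 0 := by unfold r0; simp
  -- step 1
  have step1 : ∀ s ∈ Ioo 0 s₀, ∀ y : ℝ, MvPolynomial.eval ![ff s₀ s, y] P = 0 := by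
    intro s hs
    obtain ⟨Q, hQ⟩ : ∃ Q : Polynomial ℝ, Q = MvPolynomial.aeval
      ![Polynomial.C (ff s₀ s), Polynomial.X] P := ⟨_, rfl⟩
    have hQe : ∀ y, Polynomial.eval y Q = MvPolynomial.eval ![ff s₀ s, y] P := by
      intro y
      rw [hQ, eval_aeval_poly, vec_eq _ y (ff s₀ s) y (by simp) (by simp)]
    have hQ0 : Q = 0 := by
      apply Polynomial.eq_zero_of_infinite_isRoot
      apply Set.Infinite.mono (s := Ioo (-s) s) _ (Set.Ioo_infinite (by linarith [hs.1]))
      intro y hy
      show Polynomial.IsRoot Q y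
      unfold Polynomial.IsRoot
      rw [hQe]
      have hcont : Continuous (fun x => r0 x + s * d0 x) := hr0.add (continuous_const.mul hd0)
      obtain ⟨x, _, hx⟩ := intermediate_value_Icc Real.pi_pos.le hcont.continuousOn
        (show y ∈ Icc (r0 0 + s * d0 0) (r0 π + s * d0 π) by
          rw [hr00, hr0π, hv0, hvπ]
          exact ⟨by linarith [hy.1], by linarith [hy.2]⟩)
      have := hP s x (abs_lt.mpr ⟨by linarith [hs.1], hs.2⟩)
      simp only at hx
      rw [hx] at this
      exact this
    intro y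
    rw [← hQe, hQ0, Polynomial.eval_zero]
  -- step 2
  have step2 : ∀ a y : ℝ, MvPolynomial.eval ![a, y] P = 0 := by
    intro a y
    obtain ⟨Q, hQ⟩ : ∃ Q : Polynomial ℝ, Q = MvPolynomial.aeval
      ![Polynomial.X, Polynomial.C y] P := ⟨_, rfl⟩
    have hQe : ∀ a, Polynomial.eval a Q = MvPolynomial.eval ![a, y] P := by
      intro a
      rw [hQ, eval_aeval_poly, vec_eq _ a a y (by simp) (by simp)]
    have hQ0 : Q = 0 := by
      apply Polynomial.eq_zero_of_infinite_isRoot
      have hinj : InjOn (ff s₀) (Ioo 0 s₀) := by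
        intro s hs s' hs' h
        unfold ff at h
        have e1 : 0 < s₀ ^ 2 - s ^ 2 := by nlinarith [hs.1, hs.2]
        have e2 : 0 < s₀ ^ 2 - s' ^ 2 := by nlinarith [hs'.1, hs'.2]
        have e3 : s₀ ^ 2 - s ^ 2 = s₀ ^ 2 - s' ^ 2 := by
          rw [one_div, one_div] at h
          exact inv_injective h
        have e4 : s ^ 2 = s' ^ 2 := by linarith
        exact (pow_left_inj₀ hs.1.le hs'.1.le (by norm_num)).mp e4
      apply Set.Infinite.mono (s := ff s₀ '' Ioo 0 s₀) _ ((Set.Ioo_infinite hs₀).image hinj)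
      rintro _ ⟨s, hs, rfl⟩
      show Polynomial.IsRoot Q _
      unfold Polynomial.IsRoot
      rw [hQe]
      exact step1 s hs y
    rw [← hQe, hQ0, Polynomial.eval_zero]
  apply MvPolynomial.funext
  intro x
  rw [map_zero]
  have : x = ![x 0, x 1] := by
    funext i
    fin_cases i <;> rfl
  rw [this]
  exact step2 _ _

end Pool.Agent.Y302.AF
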