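import Pool.Agent.Y520.AF.Stm

/-!
# Project AF of helper520 (by helper302): the ideal of the surface is prime, the transcendence
degree is at most two
-/

set_option autoImplicit false

noncomputable section

open Real Filter Topology Set

namespace Pool.Agent.Y302.AF

open Pool.Agent.Y520.AF

/-- the coordinates of the surface -/
def crd (s₀ : ℝ) (p : ℝ × ℝ) : Fin 4 → ℝ :=
  ![ff s₀ p.1, r0 p.2 + p.1 * d0 p.2, r1 p.2 + p.1 * d1 p.2, r2 p.2 + p.1 * d2 p.2]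

theorem mem_vanI {s₀ : ℝ} {P : MvPolynomial (Fin 4) ℝ} :
    P ∈ vanI (Surf s₀) ↔ ∀ p ∈ UU s₀, MvPolynomial.eval (crd s₀ p) P = 0 := by
  constructor
  · intro h p hp
    exact h _ ⟨p.1, p.2, hp, rfl⟩
  · rintro h _ ⟨s, x, hs, rfl⟩
    exact h (s, x) hs

theorem rh_sq (x : ℝ) : rh x ^ 2 = p0 x ^ 2 + p1 x ^ 2 + p2 x ^ 2 := by
  unfold rh
  exact Real.sq_sqrt (by positivity)

theorem gg_sq (x : ℝ) : gg x ^ 2 = c0 x ^ 2 + c1 x ^ 2 + c2 x ^ 2 := by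
  unfold gg
  exact Real.sq_sqrt (by positivity)

/-- the subalgebra of the analytic functions on the strip -/
def Os (s₀ : ℝ) : Subalgebra ℝ (UU s₀ → ℝ) where
  carrier := {f | ∃ F : ℝ × ℝ → ℝ, AnalyticOnNhd ℝ F (UU s₀) ∧ ∀ p : UU s₀, f p = F p}
  mul_mem' := by
    rintro f g ⟨F, hF, hfF⟩ ⟨G, hG, hgG⟩
    exact ⟨F * G, hF.mul hG, fun p => by
      show f p * g p = F p * G p
      rw [hfF, hgG]⟩
  add_mem' := by
    rintro f g ⟨F, hF, hfF⟩ ⟨G, hG, hgG⟩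
    exact ⟨F + G, hF.add hG, fun p => by
      show f p + g p = F p + G p
      rw [hfF, hgG]⟩
  algebraMap_mem' := fun r => ⟨fun _ => r, analyticOnNhd_const, fun _ => rfl⟩

theorem nzd (h : S_OO) {s₀ : ℝ} (hs₀ : 0 < s₀) : NoZeroDivisors (Os s₀) := by
  constructor
  rintro ⟨f, F, hF, hfF⟩ ⟨g, G, hG, hgG⟩ hfg
  have h1 : ∀ p ∈ UU s₀, F p * G p = 0 := by
    intro p hp
    have h2 : f * g = 0 := congrArg Subtype.val hfg
    have h3 := congrFun h2 ⟨p, hp⟩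
    have h4 : f ⟨p, hp⟩ * g ⟨p, hp⟩ = 0 := h3
    rw [hfF, hgG] at h4
    exact h4
  rcases h s₀ hs₀ F G hF hG h1 with h2 | h2
  · left
    apply Subtype.ext
    funext p
    show f p = 0
    rw [hfF]
    exact h2 p.1 p.2
  · right
    apply Subtype.ext
    funext p
    show g p = 0
    rw [hgG]
    exact h2 p.1 p.2

theorem ntr {s₀ : ℝ} (hs₀ : 0 < s₀) : Nontrivial (Os s₀) := by
  refine ⟨⟨0, 1, ?_⟩⟩
  intro h
  have h1 := congrFun (congrArg Subtype.val h) ⟨(0, 0), by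
    show |(0 : ℝ)| < s₀
    rw [abs_zero]
    exact hs₀⟩
  exact zero_ne_one h1

theorem dom (h : S_OO) {s₀ : ℝ} (hs₀ : 0 < s₀) : IsDomain (Os s₀) := by
  have := nzd h hs₀
  have := ntr hs₀
  exact (isDomain_iff_noZeroDivisors_and_nontrivial _).mpr ⟨inferInstance, inferInstance⟩

theorem sq_pos_UU {s₀ : ℝ} {p : ℝ × ℝ} (hp : p ∈ UU s₀) : 0 < s₀ ^ 2 - p.1 ^ 2 := by
  have h1 := abs_lt.mp (show |p.1| < s₀ from hp)
  nlinarith [h1.1, h1.2]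

/-- the functions -/
def eS (s₀ : ℝ) : Os s₀ := ⟨fun p => p.1.1, Prod.fst, fun _ _ => analyticAt_fst, fun _ => rfl⟩

def eN (s₀ : ℝ) : Os s₀ := ⟨fun p => sin p.1.2, fun p => sin p.2,
  fun _ _ => (Real.analyticAt_sin).comp analyticAt_snd, fun _ => rfl⟩

def eK (s₀ : ℝ) : Os s₀ := ⟨fun p => cos p.1.2, fun p => cos p.2,
  fun _ _ => (Real.analyticAt_cos).comp analyticAt_snd, fun _ => rfl⟩

def eU (hA : S_ANA) (s₀ : ℝ) : Os s₀ := ⟨fun p => (gg p.1.2)⁻¹, fun p => (gg p.2)⁻¹,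
  fun p _ => ((hA.2 p.2 (mem_univ _)).comp analyticAt_snd).inv (hA.1 p.2).ne', fun _ => rfl⟩

def eV (s₀ : ℝ) : Os s₀ := ⟨fun p => ff s₀ p.1.1, fun p => ff s₀ p.1,
  fun p hp => by
    unfold ff
    refine AnalyticAt.div analyticAt_const ?_ (sq_pos_UU hp).ne'
    exact analyticAt_const.sub (analyticAt_fst.pow 2), fun _ => rfl⟩

theorem os_ext {s₀ : ℝ} {f g : Os s₀} (h : ∀ p : UU s₀, f.1 p = g.1 p) : f = g :=
  Subtype.ext (funext h)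

theorem alg_of_mul {B O : Type} [CommRing B] [Nontrivial B] [CommRing O] [Algebra B O] (G : B)
    (w : O) (h : algebraMap B O G * w = 1) : IsAlgebraic B w := by
  refine ⟨Polynomial.C G * Polynomial.X - 1, ?_, ?_⟩
  · intro h0
    have h1 := congrArg (fun p => Polynomial.coeff p 0) h0
    simp at h1
  · simp [h]

/-- the coordinates in terms of `s`, `sin x`, `cos x`, `1 / gg x`, `ff s₀ s` -/
def Gx {R : Type} [CommRing R] (S N K U V : R) : Fin 4 → R :=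
  ![V, N ^ 6 + S * ((-4 * K * (3 - 8 * N ^ 2 + 8 * N ^ 4)) * U +
      ((6 * N ^ 5 * K) ^ 2 + (1 - 2 * N ^ 2) ^ 2 + (1 - 8 * N ^ 2 + 8 * N ^ 4) ^ 2) *
      (-24 * N * (45 - 160 * N ^ 2 + 240 * N ^ 4 - 192 * N ^ 6 + 64 * N ^ 8)) *
      (6 * N ^ 5 * K) * U ^ 3),
    N * K + S * ((6 * N ^ 3 * (5 - 30 * N ^ 2 + 40 * N ^ 4 - 16 * N ^ 6)) * U +
      ((6 * N ^ 5 * K) ^ 2 + (1 - 2 * N ^ 2) ^ 2 + (1 - 8 * N ^ 2 + 8 * N ^ 4) ^ 2) *
      (-24 * N * (45 - 160 * N ^ 2 + 240 * N ^ 4 - 192 * N ^ 6 + 64 * N ^ 8)) *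
      (1 - 2 * N ^ 2) * U ^ 3),
    N * K * (1 - 2 * N ^ 2) + S * ((-6 * N ^ 3 * (5 - 12 * N ^ 2 + 8 * N ^ 4)) * U +
      ((6 * N ^ 5 * K) ^ 2 + (1 - 2 * N ^ 2) ^ 2 + (1 - 8 * N ^ 2 + 8 * N ^ 4) ^ 2) *
      (-24 * N * (45 - 160 * N ^ 2 + 240 * N ^ 4 - 192 * N ^ 6 + 64 * N ^ 8)) *
      (1 - 8 * N ^ 2 + 8 * N ^ 4) * U ^ 3)]

theorem Gx_map {R R' : Type} [CommRing R] [CommRing R'] (f : R →+* R') (S N K U V : R)
    (i : Fin 4) : f (Gx S N K U V i) = Gx (f S) (f N) (f K) (f U) (f V) i := by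
  unfold Gx
  fin_cases i
  · rfl
  · simp [map_add, map_mul, map_pow, map_sub, map_neg, map_ofNat, map_one]
  · simp [map_add, map_mul, map_pow, map_sub, map_neg, map_ofNat, map_one]
  · simp [map_add, map_mul, map_pow, map_sub, map_neg, map_ofNat, map_one]

theorem Gx_crd (s₀ : ℝ) (p : ℝ × ℝ) :
    Gx p.1 (sin p.2) (cos p.2) (gg p.2)⁻¹ (ff s₀ p.1) = crd s₀ p := by
  obtain ⟨s, x⟩ := p
  unfold Gx crd
  funext i
  fin_cases i
  · rfl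
  · show _ = r0 x + s * d0 x
    unfold r0 d0
    rw [rh_sq]
    unfold c0 mm p0 p1 p2
    rw [div_eq_mul_inv, div_eq_mul_inv, ← inv_pow]
    rfl
  · show _ = r1 x + s * d1 x
    unfold r1 d1
    rw [rh_sq]
    unfold c1 mm p0 p1 p2
    rw [div_eq_mul_inv, div_eq_mul_inv, ← inv_pow]
    rfl
  · show _ = r2 x + s * d2 x
    unfold r2 d2
    rw [rh_sq]
    unfold c2 mm p0 p1 p2
    rw [div_eq_mul_inv, div_eq_mul_inv, ← inv_pow]
    rfl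

theorem ev_aeval {R : Type} [CommRing R] [Algebra ℝ R] (s₀ : ℝ) (p : ℝ × ℝ) (f : R →ₐ[ℝ] ℝ)
    (S N K U V : R) (hS : f S = p.1) (hN : f N = sin p.2) (hK : f K = cos p.2)
    (hU : f U = (gg p.2)⁻¹) (hV : f V = ff s₀ p.1) (P : MvPolynomial (Fin 4) ℝ) :
    f (MvPolynomial.aeval (Gx S N K U V) P) = MvPolynomial.eval (crd s₀ p) P := by
  have h1 : f (MvPolynomial.aeval (Gx S N K U V) P) =
      MvPolynomial.aeval (fun i => f (Gx S N K U V i)) P := by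
    rw [← MvPolynomial.comp_aeval_apply]
  rw [h1]
  have h2 : (fun i => f (Gx S N K U V i)) = crd s₀ p := by
    funext i
    have h3 := Gx_map (f : R →+* ℝ) S N K U V i
    refine h3.trans ?_
    show Gx (f S) (f N) (f K) (f U) (f V) i = _
    rw [hS, hN, hK, hU, hV, Gx_crd]
  rw [h2, MvPolynomial.aeval_eq_eval]

/-- evaluation at a point of the strip -/
def evO {s₀ : ℝ} (p : UU s₀) : Os s₀ →ₐ[ℝ] ℝ :=
  (Pi.evalAlgHom ℝ (fun _ : UU s₀ => ℝ) p).comp (Os s₀).val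

theorem mem_vanI_O (hA : S_ANA) {s₀ : ℝ} {P : MvPolynomial (Fin 4) ℝ} :
    P ∈ vanI (Surf s₀) ↔
      MvPolynomial.aeval (Gx (eS s₀) (eN s₀) (eK s₀) (eU hA s₀) (eV s₀)) P = 0 := by
  have h1 : ∀ p : UU s₀, evO p (MvPolynomial.aeval
      (Gx (eS s₀) (eN s₀) (eK s₀) (eU hA s₀) (eV s₀)) P) = MvPolynomial.eval (crd s₀ p) P :=
    fun p => ev_aeval s₀ p (evO p) _ _ _ _ _ rfl rfl rfl rfl rfl P
  rw [mem_vanI]
  constructor
  · intro h
    apply os_ext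
    intro p
    have h2 := h1 p
    rw [h p.1 p.2] at h2
    exact h2
  · intro h p hp
    have h2 := h1 ⟨p, hp⟩
    rw [h, map_zero] at h2
    exact h2.symm

theorem t_PRIME (h : S_OO) (hA : S_ANA) : S_PRIME := by
  intro s₀ hs₀
  have := dom h hs₀
  refine ⟨?_, ?_⟩
  · rw [Ideal.ne_top_iff_one, mem_vanI_O hA, map_one]
    exact one_ne_zero
  · intro P Q hPQ
    rw [mem_vanI_O hA, map_mul] at hPQ
    rw [mem_vanI_O hA, mem_vanI_O hA]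
    exact mul_eq_zero.mp hPQ

/-- the algebra generated by two elements -/
abbrev Bs {O : Type} [CommRing O] [Algebra ℝ O] (S N : O) : Subalgebra ℝ O :=
  (MvPolynomial.aeval ![S, N] : MvPolynomial (Fin 2) ℝ →ₐ[ℝ] O).range

theorem trdeg_bound {O : Type} [CommRing O] [IsDomain O] [Algebra ℝ O] (S N : O) {A : Type}
    [CommRing A] [Algebra ℝ A] (f : A →ₐ[ℝ] O) (hf : Function.Injective f)
    (halg : ∀ a, IsAlgebraic (Bs S N) (f a)) : Algebra.trdeg ℝ A ≤ 2 := by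
  obtain ⟨L, hL⟩ : ∃ L : Subalgebra (Bs S N) O, L = Subalgebra.algebraicClosure (Bs S N) O :=
    ⟨_, rfl⟩
  have hmem : ∀ a, f a ∈ L := by
    intro a
    rw [hL]
    exact halg a
  have hLalg : Algebra.IsAlgebraic (Bs S N) L := by
    rw [hL]
    infer_instance
  obtain ⟨f', hf'⟩ : ∃ f' : A →ₐ[ℝ] L, Function.Injective f' := by
    refine ⟨{ toFun := fun a => ⟨f a, hmem a⟩
              map_one' := Subtype.ext (map_one f)
              map_mul' := fun a b => Subtype.ext (map_mul f a b)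
              map_zero' := Subtype.ext (map_zero f)
              map_add' := fun a b => Subtype.ext (map_add f a b)
              commutes' := fun r => Subtype.ext (f.commutes r) }, ?_⟩
    intro a b hab
    exact hf (congrArg Subtype.val hab)
  have h1 : Algebra.trdeg ℝ A ≤ Algebra.trdeg ℝ L := trdeg_le_of_injective f' hf'
  have hf1 : FaithfulSMul ℝ (Bs S N) :=
    (faithfulSMul_iff_algebraMap_injective ℝ (Bs S N)).mpr (algebraMap ℝ (Bs S N)).injective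
  have hf2 : FaithfulSMul (Bs S N) L := by
    rw [faithfulSMul_iff_algebraMap_injective]
    intro a b hab
    exact Subtype.ext (show (a : O) = b from congrArg (fun z : L => (z : O)) hab)
  have h2 : Algebra.trdeg ℝ (Bs S N) + Algebra.trdeg (Bs S N) L = Algebra.trdeg ℝ L :=
    trdeg_add_eq ℝ (Bs S N)
  have h3 : Algebra.trdeg (Bs S N) L = 0 := trdeg_eq_zero
  have h4 : Algebra.trdeg ℝ (Bs S N) ≤ Algebra.trdeg ℝ (MvPolynomial (Fin 2) ℝ) :=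
    trdeg_le_of_surjective
      (MvPolynomial.aeval ![S, N] : MvPolynomial (Fin 2) ℝ →ₐ[ℝ] O).rangeRestrict
      (AlgHom.rangeRestrict_surjective _)
  have h5 : Algebra.trdeg ℝ (MvPolynomial (Fin 2) ℝ) = 2 := by
    rw [MvPolynomial.trdeg_of_isDomain]
    simp
  rw [h3, add_zero] at h2
  rw [← h2] at h1
  rw [h5] at h4
  exact h1.trans h4

theorem alg_Gx {O : Type} [CommRing O] [IsDomain O] {B : Type} [CommRing B] [IsDomain B]
    [Algebra B O] {S N K U V : O} (hS : IsAlgebraic B S) (hN : IsAlgebraic B N)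
    (hK : IsAlgebraic B K) (hU : IsAlgebraic B U) (hV : IsAlgebraic B V) (i : Fin 4) :
    IsAlgebraic B (Gx S N K U V i) := by
  obtain ⟨L, hL⟩ : ∃ L : Subalgebra B O, L = Subalgebra.algebraicClosure B O := ⟨_, rfl⟩
  have hm : ∀ x, x ∈ L ↔ IsAlgebraic B x := by
    intro x
    rw [hL]
    rfl
  have h1 := Gx_map (L.val : L →+* O) ⟨S, (hm _).mpr hS⟩ ⟨N, (hm _).mpr hN⟩ ⟨K, (hm _).mpr hK⟩
    ⟨U, (hm _).mpr hU⟩ ⟨V, (hm _).mpr hV⟩ i
  have h2 : (L.val : L →+* O) (Gx (⟨S, (hm _).mpr hS⟩ : L) ⟨N, (hm _).mpr hN⟩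
    ⟨K, (hm _).mpr hK⟩ ⟨U, (hm _).mpr hU⟩ ⟨V, (hm _).mpr hV⟩ i) = Gx S N K U V i := h1
  rw [← h2]
  exact (hm _).mp (Subtype.property _)

theorem alg_gen {O : Type} [CommRing O] [IsDomain O] {B : Type} [CommRing B] [IsDomain B]
    [Algebra B O] {sB nB c : B} {S N K U V : O} (hs : algebraMap B O sB = S)
    (hn : algebraMap B O nB = N) (hK : K ^ 2 = 1 - N ^ 2)
    (hU : (16 * (1 - N ^ 2) * (3 - 8 * N ^ 2 + 8 * N ^ 4) ^ 2 +
      (6 * N ^ 3 * (5 - 30 * N ^ 2 + 40 * N ^ 4 - 16 * N ^ 6)) ^ 2 +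
      (6 * N ^ 3 * (5 - 12 * N ^ 2 + 8 * N ^ 4)) ^ 2) * U ^ 2 = 1)
    (hV : (algebraMap B O c - S ^ 2) * V = 1) (i : Fin 4) : IsAlgebraic B (Gx S N K U V i) := by
  have hS : IsAlgebraic B S := by
    rw [← hs]
    exact isAlgebraic_algebraMap _
  have hN : IsAlgebraic B N := by
    rw [← hn]
    exact isAlgebraic_algebraMap _
  have hK' : IsAlgebraic B K := by
    apply IsAlgebraic.of_pow (n := 2) (by norm_num)
    have h1 : K ^ 2 = algebraMap B O (1 - nB ^ 2) := by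
      rw [map_sub, map_pow, hn, map_one, hK]
    rw [h1]
    exact isAlgebraic_algebraMap _
  have hU' : IsAlgebraic B U := by
    apply IsAlgebraic.of_pow (n := 2) (by norm_num)
    apply alg_of_mul (16 * (1 - nB ^ 2) * (3 - 8 * nB ^ 2 + 8 * nB ^ 4) ^ 2 +
      (6 * nB ^ 3 * (5 - 30 * nB ^ 2 + 40 * nB ^ 4 - 16 * nB ^ 6)) ^ 2 +
      (6 * nB ^ 3 * (5 - 12 * nB ^ 2 + 8 * nB ^ 4)) ^ 2)
    simp only [map_add, map_mul, map_sub, map_pow, map_ofNat, map_one, hn]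
    exact hU
  have hV' : IsAlgebraic B V := by
    apply alg_of_mul (c - sB ^ 2)
    rw [map_sub, map_pow, hs]
    exact hV
  exact alg_Gx hS hN hK' hU' hV' i

theorem eq_U (hA : S_ANA) (s₀ : ℝ) :
    (16 * (1 - eN s₀ ^ 2) * (3 - 8 * eN s₀ ^ 2 + 8 * eN s₀ ^ 4) ^ 2 +
      (6 * eN s₀ ^ 3 * (5 - 30 * eN s₀ ^ 2 + 40 * eN s₀ ^ 4 - 16 * eN s₀ ^ 6)) ^ 2 +
      (6 * eN s₀ ^ 3 * (5 - 12 * eN s₀ ^ 2 + 8 * eN s₀ ^ 4)) ^ 2) * eU hA s₀ ^ 2 = 1 := by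
  apply os_ext
  intro p
  have h0 : ∀ f : Os s₀, f.1 p = (evO p : Os s₀ →+* ℝ) f := fun _ => rfl
  have h1 : (evO p : Os s₀ →+* ℝ) (eN s₀) = sin p.1.2 := rfl
  have h2 : (evO p : Os s₀ →+* ℝ) (eU hA s₀) = (gg p.1.2)⁻¹ := rfl
  rw [h0, h0]
  simp only [map_add, map_mul, map_sub, map_pow, map_ofNat, map_one, h1, h2]
  have h3 := gg_sq p.1.2
  have h4 : c0 p.1.2 ^ 2 + c1 p.1.2 ^ 2 + c2 p.1.2 ^ 2 =
    16 * (1 - sin p.1.2 ^ 2) * (3 - 8 * sin p.1.2 ^ 2 + 8 * sin p.1.2 ^ 4) ^ 2 +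
    (6 * sin p.1.2 ^ 3 * (5 - 30 * sin p.1.2 ^ 2 + 40 * sin p.1.2 ^ 4 - 16 * sin p.1.2 ^ 6)) ^ 2 +
    (6 * sin p.1.2 ^ 3 * (5 - 12 * sin p.1.2 ^ 2 + 8 * sin p.1.2 ^ 4)) ^ 2 := by
    unfold c0 c1 c2
    have h5 : 1 - sin p.1.2 ^ 2 = cos p.1.2 ^ 2 := by
      have := sin_sq_add_cos_sq p.1.2
      linarith
    rw [h5]
    ring
  rw [← h4, ← h3, inv_pow]
  exact mul_inv_cancel₀ (pow_pos (hA.1 _) 2).ne'

theorem eq_K (s₀ : ℝ) : eK s₀ ^ 2 = 1 - eN s₀ ^ 2 := by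
  apply os_ext
  intro p
  show cos p.1.2 ^ 2 = 1 - sin p.1.2 ^ 2
  have := sin_sq_add_cos_sq p.1.2
  linarith

theorem eq_V (s₀ : ℝ) : (algebraMap ℝ (Os s₀) (s₀ ^ 2) - eS s₀ ^ 2) * eV s₀ = 1 := by
  apply os_ext
  intro p
  show (s₀ ^ 2 - p.1.1 ^ 2) * ff s₀ p.1.1 = 1
  unfold ff
  exact mul_one_div_cancel (sq_pos_UU p.2).ne'

theorem alg_all (h : S_OO) (hA : S_ANA) {s₀ : ℝ} (hs₀ : 0 < s₀) (P : MvPolynomial (Fin 4) ℝ) :
    IsAlgebraic (Bs (eS s₀) (eN s₀))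
      (MvPolynomial.aeval (Gx (eS s₀) (eN s₀) (eK s₀) (eU hA s₀) (eV s₀)) P) := by
  have := dom h hs₀
  have hSm : eS s₀ ∈ Bs (eS s₀) (eN s₀) := ⟨MvPolynomial.X 0, by simp⟩
  have hNm : eN s₀ ∈ Bs (eS s₀) (eN s₀) := ⟨MvPolynomial.X 1, by simp⟩
  have hall : ∀ i, IsAlgebraic (Bs (eS s₀) (eN s₀))
      (Gx (eS s₀) (eN s₀) (eK s₀) (eU hA s₀) (eV s₀) i) :=
    alg_gen (B := Bs (eS s₀) (eN s₀)) (sB := ⟨_, hSm⟩) (nB := ⟨_, hNm⟩)
      (c := algebraMap ℝ (Bs (eS s₀) (eN s₀)) (s₀ ^ 2)) rfl rfl (eq_K s₀) (eq_U hA s₀) (eq_V s₀)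
  induction P using MvPolynomial.induction_on with
  | C a =>
    rw [MvPolynomial.aeval_C]
    exact isAlgebraic_algebraMap (algebraMap ℝ (Bs (eS s₀) (eN s₀)) a)
  | add p q hp hq =>
    rw [map_add]
    exact hp.add hq
  | mul_X p i hp =>
    rw [map_mul, MvPolynomial.aeval_X]
    exact hp.mul (hall i)

theorem t_TRU (h : S_OO) (hA : S_ANA) : S_TRU := by
  intro s₀ hs₀
  have := dom h hs₀
  obtain ⟨f, hf⟩ : ∃ f : (MvPolynomial (Fin 4) ℝ ⧸ vanI (Surf s₀)) →ₐ[ℝ] Os s₀,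
      ∀ P, f (Ideal.Quotient.mk _ P) =
        MvPolynomial.aeval (Gx (eS s₀) (eN s₀) (eK s₀) (eU hA s₀) (eV s₀)) P :=
    ⟨Ideal.Quotient.liftₐ (vanI (Surf s₀)) (MvPolynomial.aeval _)
      (fun a ha => (mem_vanI_O hA).mp ha), fun P => rfl⟩
  apply trdeg_bound (eS s₀) (eN s₀) f
  · rw [injective_iff_map_eq_zero]
    intro a ha
    obtain ⟨P, rfl⟩ := Ideal.Quotient.mk_surjective a
    rw [hf] at ha
    exact Ideal.Quotient.eq_zero_iff_mem.mpr ((mem_vanI_O hA).mpr ha)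
  · intro a
    obtain ⟨P, rfl⟩ := Ideal.Quotient.mk_surjective a
    rw [hf]
    exact alg_all h hA hs₀ P

end Pool.Agent.Y302.AF
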